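import Pool.Agent.X26.JF.Fin

/-!
# Local version: long deviations contain points of persistent deviation
-/

set_option autoImplicit false

namespace Pool.Agent.X26.JF

open Finset Filter Topology
open Pool.Agent.X26.MS (pr pr_add pr_le pr_mono up dn)

/-- local version: a long interval with too many primes contains a point of persistent excess -/
theorem loc_up (N : ℕ) {s s' : ℝ} (hs0 : 0 ≤ s) (hs : s < s') : ∃ n₀ : ℕ, ∀ x y : ℝ, (n₀ : ℝ) ≤ x →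
    Real.log x ^ (N + 3) ≤ y → y ≤ x → s' * (y / Real.log x) < df x y → ∃ z : ℕ, ⌊x⌋₊ ≤ z ∧ z ≤ ⌊x + y⌋₊ ∧
    ∀ g : ℕ, 1 ≤ g → (g : ℝ) ≤ Real.log z ^ N → s * g / Real.log z ≤ (pr z g : ℝ) := by
  obtain ⟨n₁, h1⟩ := log_big (max (2 ^ (N + 2)) (max (1 + 4 * s / (s' - s)) (2 ^ (N + 2) / (s' - s))))
  refine ⟨max (N + 3) n₁, fun x y hx hy hyx hbig => ?_⟩
  by_contra hcon0
  push Not at hcon0
  revert hbig
  rw [imp_false, not_lt]
  have e0 : ((N + 3 : ℕ) : ℝ) ≤ x := le_trans (by exact_mod_cast le_max_left _ _) hx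
  have e1 := h1 x (le_trans (by exact_mod_cast le_max_right _ _) hx)
  obtain ⟨ℓ, hℓ⟩ : ∃ ℓ : ℝ, ℓ = Real.log x := ⟨_, rfl⟩
  rw [← hℓ] at e1 hy ⊢
  have hx3 : 3 ≤ x := by push_cast at e0; have : (0 : ℝ) ≤ N := Nat.cast_nonneg N; linarith
  have l1 := (le_max_left _ _).trans e1
  have l2 := (le_max_left _ _).trans ((le_max_right _ _).trans e1)
  have l3 := (le_max_right _ _).trans ((le_max_right _ _).trans e1)
  have h2N : (4 : ℝ) ≤ 2 ^ (N + 2) := by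
    have : (1 : ℝ) ≤ 2 ^ N := one_le_pow₀ (by norm_num)
    rw [pow_add]
    linarith
  have hℓ4 : 4 ≤ ℓ := h2N.trans l1
  have hy' : ℓ ^ (N + 3) ≤ y := hy
  obtain ⟨w1, w2, w3, w4, w5, w6, w7, w8⟩ := window hℓ hx3 l1 hy' hyx
  have hy0 : 0 ≤ y := le_trans (by positivity) w6
  obtain ⟨n, hn⟩ : ∃ n : ℕ, n = ⌊x⌋₊ := ⟨_, rfl⟩
  obtain ⟨M, hM⟩ : ∃ M : ℕ, M = ⌊x + y⌋₊ - ⌊x⌋₊ := ⟨_, rfl⟩
  obtain ⟨H, hH⟩ : ∃ H : ℕ, H = ⌈(2 * ℓ) ^ N⌉₊ := ⟨_, rfl⟩
  have hfl : ⌊x⌋₊ ≤ ⌊x + y⌋₊ := Nat.floor_le_floor (by linarith)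
  rw [df_eq hy0, ← hM, ← hn]
  rw [← hM] at w2 w3 w5
  rw [← hH] at w4 w5
  rw [← hn] at w7 w8
  have hln : 0 < Real.log n := by linarith
  have key : (pr n M : ℝ) ≤ s / Real.log n * M + H := by
    by_contra hcon
    rw [not_le] at hcon
    obtain ⟨z, z1, z2, z3⟩ := up n M H (s / Real.log n) (by positivity) w5 hcon
    obtain ⟨g, g1, g2, g3⟩ := hcon0 z (hn ▸ z1) (by omega)
    obtain ⟨v1, v2, v3, v4⟩ := w7 z z1 (by omega)
    have hgH : g ≤ H := by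
      have : (g : ℝ) ≤ H := by
        refine g2.trans ?_
        refine le_trans ?_ (hH ▸ Nat.le_ceil _)
        exact pow_le_pow_left₀ (by linarith) v3 N
      exact_mod_cast this
    have h5 := z3 g g1 hgH
    have hlz : 0 < Real.log z := by linarith
    have h6 : s * g / Real.log z ≤ s / Real.log n * g := by
      rw [div_mul_eq_mul_div]
      exact div_le_div_of_nonneg_left (by positivity) hln v4
    linarith
  refine key.trans ?_
  have hss : 0 < s' - s := by linarith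
  have h5 : s / Real.log n * M ≤ s / (ℓ - 1) * (y + 1) := by
    apply mul_le_mul _ w2 (Nat.cast_nonneg _) (by apply div_nonneg hs0; linarith)
    exact div_le_div_of_nonneg_left hs0 (by linarith) w8
  have h6 : s / (ℓ - 1) * (y + 1) ≤ (s + (s' - s) / 2) * (y / ℓ) := by
    have h7 : 4 * s ≤ (s' - s) * (ℓ - 1) := by
      have : 4 * s / (s' - s) ≤ ℓ - 1 := by linarith
      rw [div_le_iff₀ hss] at this
      linarith
    have hl1 : 0 < ℓ - 1 := by linarith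
    have hl0 : 0 < ℓ := by linarith
    rw [div_mul_eq_mul_div, div_le_iff₀ hl1]
    have e2 : (s + (s' - s) / 2) * (y / ℓ) * (ℓ - 1) = (s + (s' - s) / 2) * y * (ℓ - 1) / ℓ := by ring
    rw [e2, le_div_iff₀ hl0]
    have h8 : ℓ ≤ y := by nlinarith
    -- s (y+1) ℓ ≤ (s + (s'-s)/2) y (ℓ-1)
    have h9 : s * (y + 1) * ℓ ≤ s * (y * (ℓ + 1)) := by
      have : (y + 1) * ℓ ≤ y * (ℓ + 1) := by nlinarith
      calc s * (y + 1) * ℓ = s * ((y + 1) * ℓ) := by ring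
        _ ≤ _ := mul_le_mul_of_nonneg_left this hs0
    have h10 : s * (y * (ℓ + 1)) ≤ (s + (s' - s) / 2) * y * (ℓ - 1) := by
      have : (s + (s' - s) / 2) * y * (ℓ - 1) - s * (y * (ℓ + 1)) = y * ((s' - s) / 2 * (ℓ - 1) - 2 * s) := by ring
      have h11 : 0 ≤ y * ((s' - s) / 2 * (ℓ - 1) - 2 * s) := by
        apply mul_nonneg hy0
        linarith
      linarith
    linarith
  have h7 : (H : ℝ) ≤ (s' - s) / 2 * (y / ℓ) := by
    have hl0 : 0 < ℓ := by linarith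
    have h8 : (2 : ℝ) ^ (N + 2) ≤ (s' - s) * ℓ := by
      rw [div_le_iff₀ hss] at l3
      linarith
    have e2 : (s' - s) / 2 * (y / ℓ) = ((s' - s) / 2 * y) / ℓ := by ring
    rw [e2, le_div_iff₀ hl0]
    have h9 : (H : ℝ) * ℓ ≤ 2 ^ (N + 1) * ℓ ^ N * ℓ := mul_le_mul_of_nonneg_right w4 hl0.le
    have h10 : (2 : ℝ) ^ (N + 1) * ℓ ^ N * ℓ ≤ (s' - s) / 2 * ℓ ^ (N + 2) := by
      have e3 : (s' - s) / 2 * ℓ ^ (N + 2) = ((s' - s) * ℓ) / 2 * ℓ ^ (N + 1) := by ring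
      have e4 : (2 : ℝ) ^ (N + 1) * ℓ ^ N * ℓ = 2 ^ (N + 2) / 2 * ℓ ^ (N + 1) := by ring
      rw [e3, e4]
      apply mul_le_mul_of_nonneg_right _ (by positivity)
      linarith
    have h11 : (s' - s) / 2 * ℓ ^ (N + 2) ≤ (s' - s) / 2 * y := by
      apply mul_le_mul_of_nonneg_left _ (by linarith)
      exact (pow_le_pow_right₀ w1 (by omega)).trans hy'
    linarith
  calc s / Real.log n * M + H ≤ (s + (s' - s) / 2) * (y / ℓ) + (s' - s) / 2 * (y / ℓ) := by linarith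
    _ = s' * (y / ℓ) := by ring

/-- local version: a long interval with too few primes contains a point of persistent deficit -/
theorem loc_dn (N : ℕ) {s s' : ℝ} (hs0 : 0 ≤ s) (hs : s' < s) : ∃ n₀ : ℕ, ∀ x y : ℝ, (n₀ : ℝ) ≤ x →
    Real.log x ^ (N + 3) ≤ y → y ≤ x → df x y < s' * (y / Real.log x) → ∃ z : ℕ, ⌊x⌋₊ ≤ z ∧ z ≤ ⌊x + y⌋₊ ∧
    ∀ g : ℕ, 1 ≤ g → (g : ℝ) ≤ Real.log z ^ N → (pr z g : ℝ) ≤ s * g / Real.log z := by
  obtain ⟨n₁, h1⟩ := log_big (max (2 ^ (N + 2)) ((|s'| + s * 2 ^ (N + 2)) / (s - s')))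
  refine ⟨max (N + 3) n₁, fun x y hx hy hyx hbig => ?_⟩
  by_contra hcon0
  push Not at hcon0
  revert hbig
  rw [imp_false, not_lt]
  have e0 : ((N + 3 : ℕ) : ℝ) ≤ x := le_trans (by exact_mod_cast le_max_left _ _) hx
  have e1 := h1 x (le_trans (by exact_mod_cast le_max_right _ _) hx)
  obtain ⟨ℓ, hℓ⟩ : ∃ ℓ : ℝ, ℓ = Real.log x := ⟨_, rfl⟩
  rw [← hℓ] at e1 hy ⊢
  have hx3 : 3 ≤ x := by push_cast at e0; have : (0 : ℝ) ≤ N := Nat.cast_nonneg N; linarith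
  have l1 := (le_max_left _ _).trans e1
  have l2 := (le_max_right _ _).trans e1
  have h2N : (4 : ℝ) ≤ 2 ^ (N + 2) := by
    have : (1 : ℝ) ≤ 2 ^ N := one_le_pow₀ (by norm_num)
    rw [pow_add]
    linarith
  have hℓ4 : 4 ≤ ℓ := h2N.trans l1
  have hy' : ℓ ^ (N + 3) ≤ y := hy
  obtain ⟨w1, w2, w3, w4, w5, w6, w7, w8⟩ := window hℓ hx3 l1 hy' hyx
  have hy0 : 0 ≤ y := le_trans (by positivity) w6
  obtain ⟨n, hn⟩ : ∃ n : ℕ, n = ⌊x⌋₊ := ⟨_, rfl⟩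
  obtain ⟨M, hM⟩ : ∃ M : ℕ, M = ⌊x + y⌋₊ - ⌊x⌋₊ := ⟨_, rfl⟩
  obtain ⟨H, hH⟩ : ∃ H : ℕ, H = ⌈(2 * ℓ) ^ N⌉₊ := ⟨_, rfl⟩
  have hfl : ⌊x⌋₊ ≤ ⌊x + y⌋₊ := Nat.floor_le_floor (by linarith)
  rw [df_eq hy0, ← hM, ← hn]
  rw [← hM] at w2 w3 w5
  rw [← hH] at w4 w5
  rw [← hn] at w7 w8
  have hl0 : 0 < ℓ := by linarith
  have key : s / (ℓ + 1) * (M - H) ≤ (pr n M : ℝ) := by
    by_contra hcon
    rw [not_le] at hcon
    obtain ⟨z, z1, z2, z3⟩ := dn n M H (s / (ℓ + 1)) (by positivity) w5 hcon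
    obtain ⟨g, g1, g2, g3⟩ := hcon0 z (hn ▸ z1) (by omega)
    obtain ⟨v1, v2, v3, v4⟩ := w7 z z1 (by omega)
    have hgH : g ≤ H := by
      have : (g : ℝ) ≤ H := by
        refine g2.trans ?_
        refine le_trans ?_ (hH ▸ Nat.le_ceil _)
        exact pow_le_pow_left₀ (by linarith) v3 N
      exact_mod_cast this
    have h5 := z3 g g1 hgH
    have hlz : 0 < Real.log z := by linarith
    have h6 : s / (ℓ + 1) * g ≤ s * g / Real.log z := by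
      rw [div_mul_eq_mul_div]
      exact div_le_div_of_nonneg_left (by positivity) hlz v1
    linarith
  refine le_trans ?_ key
  have hss : 0 < s - s' := by linarith
  have h5 : s / (ℓ + 1) * (y - 2 ^ (N + 2) * ℓ ^ N) ≤ s / (ℓ + 1) * (M - H) := by
    apply mul_le_mul_of_nonneg_left _ (by positivity)
    have h6 : (1 : ℝ) ≤ 2 ^ (N + 1) * ℓ ^ N := by
      have : (1 : ℝ) ≤ 2 ^ (N + 1) := one_le_pow₀ (by norm_num)
      have : (1 : ℝ) ≤ ℓ ^ N := one_le_pow₀ w1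
      nlinarith
    have e2 : (2 : ℝ) ^ (N + 2) * ℓ ^ N = 2 ^ (N + 1) * ℓ ^ N + 2 ^ (N + 1) * ℓ ^ N := by ring
    rw [e2]
    linarith
  refine le_trans ?_ h5
  rw [div_mul_eq_mul_div, le_div_iff₀ (by linarith)]
  have e3 : s' * (y / ℓ) * (ℓ + 1) = s' * y * (ℓ + 1) / ℓ := by ring
  rw [e3, div_le_iff₀ hl0]
  have h6 : |s'| + s * 2 ^ (N + 2) ≤ ℓ * (s - s') := by
    rwa [div_le_iff₀ hss] at l2
  have h7 : ℓ ^ N * ℓ ≤ y := by
    refine le_trans ?_ hy'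
    rw [← pow_succ]
    exact pow_le_pow_right₀ w1 (by omega)
  have h8 : s * 2 ^ (N + 2) * (ℓ ^ N * ℓ) ≤ s * 2 ^ (N + 2) * y :=
    mul_le_mul_of_nonneg_left h7 (by positivity)
  have h9 : s' * y ≤ |s'| * y := mul_le_mul_of_nonneg_right (le_abs_self _) hy0
  have h10 : (|s'| + s * 2 ^ (N + 2)) * y ≤ ℓ * (s - s') * y := mul_le_mul_of_nonneg_right h6 hy0
  nlinarith


/-- one exponent for each `ε` -/
def O : Prop := ∀ ε : ℝ, 0 < ε → ∃ a : ℝ, 1 ≤ a ∧ ∀ᶠ x : ℝ in atTop, |RR a x - 1| ≤ ε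

/-- no persistent deviations -/
def P : Prop := ∀ δ : ℝ, 0 < δ → ∃ N : ℕ, ∀ n : ℕ, N ≤ n →
  (∃ h : ℕ, 1 ≤ h ∧ (h : ℝ) ≤ Real.log n ^ N ∧ (pr n h : ℝ) < (1 + δ) * h / Real.log n) ∧
  (∃ h : ℕ, 1 ≤ h ∧ (h : ℝ) ≤ Real.log n ^ N ∧ (1 - δ) * h / Real.log n < (pr n h : ℝ))

theorem P_iff : P ↔ uu = 1 ∧ ll = 1 := by
  constructor
  · intro h
    constructor
    · apply le_antisymm _ one_le_uu
      apply le_of_forall_gt
      intro c hc
      obtain ⟨t, h1, h2⟩ := EReal.lt_iff_exists_real_btwn.1 hc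
      have ht : 1 < t := by exact_mod_cast h1
      obtain ⟨N, hN⟩ := h (t - 1) (by linarith)
      have h3 : UpD t := ⟨N, fun n hn => by
        obtain ⟨g, g1, g2, g3⟩ := (hN n hn).1
        refine ⟨g, g1, g2, ?_⟩
        rwa [show 1 + (t - 1) = t by ring] at g3⟩
      exact lt_of_le_of_lt (uu_le h3) h2
    · apply le_antisymm ll_le_one
      apply le_of_forall_lt
      intro c hc
      obtain ⟨t, h1, h2⟩ := EReal.lt_iff_exists_real_btwn.1 hc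
      have ht : t < 1 := by exact_mod_cast h2
      obtain ⟨N, hN⟩ := h (1 - t) (by linarith)
      have h3 : DnD t := ⟨N, fun n hn => by
        obtain ⟨g, g1, g2, g3⟩ := (hN n hn).2
        refine ⟨g, g1, g2, ?_⟩
        rwa [show 1 - (1 - t) = t by ring] at g3⟩
      exact lt_of_lt_of_le h1 (le_ll h3)
  · rintro ⟨h1, h2⟩ δ hδ
    obtain ⟨N₁, hN₁⟩ := upD_of_gt (s := 1 + δ) (by rw [h1]; exact_mod_cast (by linarith : (1 : ℝ) < 1 + δ))
    obtain ⟨N₂, hN₂⟩ := dnD_of_lt (s := 1 - δ) (by rw [h2]; exact_mod_cast (by linarith : 1 - δ < (1 : ℝ)))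
    refine ⟨max (max N₁ N₂) 3, fun n hn => ?_⟩
    have hn3 : 3 ≤ n := (le_max_right _ _).trans hn
    have hl1 : 1 ≤ Real.log n := by
      have h5 : Real.log (Real.exp 1) ≤ Real.log n := Real.log_le_log (Real.exp_pos 1) (by
        have := Real.exp_one_lt_d9
        have h6 : (3 : ℝ) ≤ n := by exact_mod_cast hn3
        linarith)
      rwa [Real.log_exp] at h5
    obtain ⟨g, g1, g2, g3⟩ := hN₁ n ((le_max_left _ _).trans ((le_max_left _ _).trans hn))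
    obtain ⟨k, k1, k2, k3⟩ := hN₂ n ((le_max_right _ _).trans ((le_max_left _ _).trans hn))
    exact ⟨⟨g, g1, g2.trans (pow_le_pow_right₀ hl1 ((le_max_left _ _).trans (le_max_left _ _))), g3⟩,
      ⟨k, k1, k2.trans (pow_le_pow_right₀ hl1 ((le_max_right _ _).trans (le_max_left _ _))), k3⟩⟩

theorem J_O (h : J) : O := by
  intro ε hε
  obtain ⟨a₀, ha₀⟩ := h ε hε
  exact ⟨max a₀ 1, le_max_right _ _, ha₀ _ (le_max_left _ _)⟩

theorem O_iff (h : O) : uu = 1 ∧ ll = 1 := by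
  constructor
  · apply le_antisymm _ one_le_uu
    apply le_of_forall_gt
    intro c hc
    obtain ⟨t, h1, h2⟩ := EReal.lt_iff_exists_real_btwn.1 hc
    have ht : 1 < t := by exact_mod_cast h1
    obtain ⟨a, ha, ha₀⟩ := h ((t - 1) / 2) (by linarith)
    have h3 : UpD t := by
      refine upD_of_ev (a := a) (s := 1 + (t - 1) / 2) ha (by linarith) ?_
      filter_upwards [ha₀] with x hx
      have := (abs_le.1 hx).2
      linarith
    exact lt_of_le_of_lt (uu_le h3) h2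
  · apply le_antisymm ll_le_one
    apply le_of_forall_lt
    intro c hc
    obtain ⟨t, h1, h2⟩ := EReal.lt_iff_exists_real_btwn.1 hc
    have ht : t < 1 := by exact_mod_cast h2
    obtain ⟨a, ha, ha₀⟩ := h ((1 - t) / 2) (by linarith)
    have h3 : DnD t := by
      refine dnD_of_ev (a := a) (s := 1 - (1 - t) / 2) ha (by linarith) ?_
      filter_upwards [ha₀] with x hx
      have := (abs_le.1 hx).1
      linarith
    exact lt_of_lt_of_le h1 (le_ll h3)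

theorem tfae : List.TFAE [F, J, O, P] := by
  tfae_have 1 ↔ 2 := F_iff.trans J_iff.symm
  tfae_have 2 → 3 := J_O
  tfae_have 3 → 4 := fun h => P_iff.2 (O_iff h)
  tfae_have 4 → 2 := fun h => J_iff.2 (P_iff.1 h)
  tfae_finish

end Pool.Agent.X26.JF
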