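import Pool.Agent.X26.JF.Lim
import Pool.Agent.X26.MS.Cnt

/-!
# Equivalences and Maier's theorem
-/

set_option autoImplicit false

namespace Pool.Agent.X26.JF

open Finset Filter Topology
open Pool.Agent.X26.MS (pr pr_add pr_le pr_mono up dn)

theorem big_X (K X₀ : ℝ) : ∃ X : ℝ, X₀ ≤ X ∧ K ≤ X * Real.exp (-(Real.log X) ^ (1 / 2 : ℝ)) := by
  obtain ⟨X, hX⟩ : ∃ X : ℝ, X = max X₀ (max (Real.exp 4) (K ^ 2)) := ⟨_, rfl⟩
  have h1 : X₀ ≤ X := by rw [hX]; exact le_max_left _ _
  have h2 : Real.exp 4 ≤ X := by rw [hX]; exact (le_max_left _ _).trans (le_max_right _ _)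
  have h3 : K ^ 2 ≤ X := by rw [hX]; exact (le_max_right _ _).trans (le_max_right _ _)
  have hX0 : 0 < X := (Real.exp_pos 4).trans_le h2
  have hL : 4 ≤ Real.log X := by
    have := Real.log_le_log (Real.exp_pos 4) h2
    rwa [Real.log_exp] at this
  refine ⟨X, h1, ?_⟩
  have h4 : (Real.log X) ^ (1 / 2 : ℝ) ≤ Real.log X / 2 := by
    rw [← Real.sqrt_eq_rpow, Real.sqrt_le_left (by linarith)]
    nlinarith
  have h5 : Real.sqrt X ≤ X * Real.exp (-(Real.log X) ^ (1 / 2 : ℝ)) := by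
    have h6 : Real.sqrt X = X * Real.exp (-(Real.log X / 2)) := by
      have e1 : Real.sqrt X = Real.exp (Real.log X / 2) := by
        rw [Real.sqrt_eq_rpow, Real.rpow_def_of_pos hX0]
        congr 1
        ring
      have e2 : X * Real.exp (-(Real.log X / 2)) = Real.exp (Real.log X) * Real.exp (-(Real.log X / 2)) := by
        rw [Real.exp_log hX0]
      rw [e1, e2, ← Real.exp_add]
      congr 1
      ring
    rw [h6]
    apply mul_le_mul_of_nonneg_left _ hX0.le
    exact Real.exp_le_exp.2 (by linarith)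
  refine le_trans ?_ h5
  exact Real.le_sqrt_of_sq_le h3

theorem exists_gt {S : Finset ℕ} {K : ℕ} (h : ((K + 2 : ℕ) : ℝ) ≤ (S.card : ℝ)) : ∃ n ∈ S, K < n := by
  by_contra hcon
  push Not at hcon
  have h1 : S ⊆ range (K + 1) := fun n hn => mem_range.2 (by have := hcon n hn; omega)
  have h2 := card_le_card h1
  rw [card_range] at h2
  have h3 : K + 2 ≤ S.card := by exact_mod_cast h
  omega

theorem not_upD_one : ¬ UpD 1 := by
  classical
  rintro ⟨N, hN⟩
  obtain ⟨δ, hδ, X₀, hX₀⟩ := Pool.Agent.X26.MS.main N (ε := 1 / 2) (by norm_num)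
  obtain ⟨n₁, h1⟩ := log_big (max 1 (1 / δ))
  obtain ⟨K, hK⟩ : ∃ K : ℕ, K = N + n₁ + 3 := ⟨_, rfl⟩
  obtain ⟨X, hX1, hX2⟩ := big_X ((K + 2 : ℕ) : ℝ) X₀
  obtain ⟨p, hp, hpK⟩ := exists_gt (hX2.trans (hX₀ X hX1).1)
  rw [mem_filter] at hp
  obtain ⟨_, _, hp2⟩ := hp
  obtain ⟨n, rfl⟩ : ∃ n, p = n + 1 := ⟨p - 1, by omega⟩
  have hnn : n₁ ≤ n := by omega
  have hl := h1 n (by exact_mod_cast hnn)
  have hl1 := (le_max_left _ _).trans hl
  have hl2 := (le_max_right _ _).trans hl
  obtain ⟨g, g1, g2, g3⟩ := hN n (by omega)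
  have hn0 : (0 : ℝ) < n := by exact_mod_cast (show 0 < n by omega)
  have hlog : Real.log n ≤ Real.log ((n + 1 : ℕ) : ℝ) := Real.log_le_log hn0 (by push_cast; linarith)
  have hlog2 : Real.log ((n + 1 : ℕ) : ℝ) ≤ (1 + δ) * Real.log n := by
    have h5 : Real.log ((n + 1 : ℕ) : ℝ) - Real.log n ≤ 1 := by
      rw [← Real.log_div (by positivity) hn0.ne']
      have h6 : ((n + 1 : ℕ) : ℝ) / n ≤ Real.exp 1 := by
        rw [div_le_iff₀ hn0]
        have h7 := Real.add_one_le_exp (1 : ℝ)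
        have h8 : (1 : ℝ) ≤ n := by exact_mod_cast (show 1 ≤ n by omega)
        push_cast
        nlinarith
      have h7 := Real.log_le_log (by positivity) h6
      rwa [Real.log_exp] at h7
    have h8 : 1 ≤ δ * Real.log n := by
      rw [div_le_iff₀ hδ] at hl2
      linarith
    linarith
  have h6 := hp2 g g1 (g2.trans (pow_le_pow_left₀ (by linarith) hlog N))
  have e : Ico (n + 1) (n + 1 + g) = Ioc n (n + g) := by
    ext u
    rw [mem_Ico, mem_Ioc]
    omega
  rw [e] at h6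
  have h7 : (1 : ℝ) * g / Real.log n ≤ (1 + δ) * g / Real.log ((n + 1 : ℕ) : ℝ) := by
    rw [div_le_div_iff₀ (by linarith) (by linarith)]
    have hg : (0 : ℝ) ≤ g := Nat.cast_nonneg _
    nlinarith
  unfold pr at g3
  linarith

theorem not_dnD_one : ¬ DnD 1 := by
  classical
  rintro ⟨N, hN⟩
  obtain ⟨δ, hδ, X₀, hX₀⟩ := Pool.Agent.X26.MS.main N (ε := 1 / 2) (by norm_num)
  obtain ⟨K, hK⟩ : ∃ K : ℕ, K = N + 3 := ⟨_, rfl⟩
  obtain ⟨X, hX1, hX2⟩ := big_X ((K + 2 : ℕ) : ℝ) X₀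
  obtain ⟨n, hp, hpK⟩ := exists_gt (hX2.trans (hX₀ X hX1).2)
  rw [mem_filter] at hp
  obtain ⟨_, hp2⟩ := hp
  obtain ⟨g, g1, g2, g3⟩ := hN n (by omega)
  have h6 := hp2 g g1 g2
  have hl : 0 < Real.log n := Real.log_pos (by exact_mod_cast (show 1 < n by omega))
  have h7 : (1 - δ) * g / Real.log n ≤ 1 * g / Real.log n := by
    apply div_le_div_of_nonneg_right _ hl.le
    have hg : (0 : ℝ) ≤ g := Nat.cast_nonneg _
    nlinarith
  unfold pr at g3
  linarith

theorem one_le_uu : 1 ≤ uu := by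
  unfold uu
  apply le_sInf
  rintro e ⟨s, rfl, hs⟩
  by_contra hcon
  rw [not_le] at hcon
  have h1 : s < 1 := by exact_mod_cast hcon
  exact not_upD_one (upD_mono h1.le hs)

theorem ll_le_one : ll ≤ 1 := by
  unfold ll
  apply sSup_le
  rintro e ⟨s, rfl, hs⟩
  by_contra hcon
  rw [not_le] at hcon
  have h1 : 1 < s := by exact_mod_cast hcon
  exact not_dnD_one (dnD_mono h1.le hs)

/-- persistent excess -/
theorem persist_up {s : ℝ} (h : (s : EReal) < uu) (N : ℕ) : ∃ᶠ n : ℕ in atTop, ∀ g : ℕ, 1 ≤ g →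
    (g : ℝ) ≤ Real.log n ^ N → s * g / Real.log n ≤ (pr n g : ℝ) := by
  rw [frequently_atTop]
  intro a
  by_contra hcon
  push Not at hcon
  have h1 : UpD s := by
    refine ⟨max (max N a) 3, fun n hn => ?_⟩
    obtain ⟨g, g1, g2, g3⟩ := hcon n ((le_max_right _ _).trans ((le_max_left _ _).trans hn))
    have hn3 : 3 ≤ n := (le_max_right _ _).trans hn
    have hl1 : 1 ≤ Real.log n := by
      have h5 : Real.log (Real.exp 1) ≤ Real.log n := Real.log_le_log (Real.exp_pos 1) (by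
        have := Real.exp_one_lt_d9
        have h6 : (3 : ℝ) ≤ n := by exact_mod_cast hn3
        linarith)
      rwa [Real.log_exp] at h5
    exact ⟨g, g1, g2.trans (pow_le_pow_right₀ hl1 ((le_max_left _ _).trans (le_max_left _ _))), g3⟩
  exact absurd (uu_le h1) (not_le.2 h)

theorem persist_dn {s : ℝ} (h : ll < (s : EReal)) (N : ℕ) : ∃ᶠ n : ℕ in atTop, ∀ g : ℕ, 1 ≤ g →
    (g : ℝ) ≤ Real.log n ^ N → (pr n g : ℝ) ≤ s * g / Real.log n := by
  rw [frequently_atTop]
  intro a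
  by_contra hcon
  push Not at hcon
  have h1 : DnD s := by
    refine ⟨max (max N a) 3, fun n hn => ?_⟩
    obtain ⟨g, g1, g2, g3⟩ := hcon n ((le_max_right _ _).trans ((le_max_left _ _).trans hn))
    have hn3 : 3 ≤ n := (le_max_right _ _).trans hn
    have hl1 : 1 ≤ Real.log n := by
      have h5 : Real.log (Real.exp 1) ≤ Real.log n := Real.log_le_log (Real.exp_pos 1) (by
        have := Real.exp_one_lt_d9
        have h6 : (3 : ℝ) ≤ n := by exact_mod_cast hn3
        linarith)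
      rwa [Real.log_exp] at h5
    exact ⟨g, g1, g2.trans (pow_le_pow_right₀ hl1 ((le_max_left _ _).trans (le_max_left _ _))), g3⟩
  exact absurd (le_ll h1) (not_le.2 h)

/-- the assertion on the limits -/
def J : Prop := ∀ ε : ℝ, 0 < ε → ∃ a₀ : ℝ, ∀ a : ℝ, a₀ ≤ a → ∀ᶠ x : ℝ in atTop, |RR a x - 1| ≤ ε

/-- the uniform assertion -/
def F : Prop := ∀ ε : ℝ, 0 < ε → ∃ N : ℝ, 1 < N ∧ ∀ x y : ℝ, N ≤ x → Real.log x ^ N ≤ y → y ≤ x →
  |df x y / (y / Real.log x) - 1| ≤ ε

theorem J_iff : J ↔ uu = 1 ∧ ll = 1 := by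
  constructor
  · intro h
    constructor
    · apply le_antisymm _ one_le_uu
      apply le_of_forall_gt
      intro c hc
      obtain ⟨t, h1, h2⟩ := EReal.lt_iff_exists_real_btwn.1 hc
      have ht : 1 < t := by exact_mod_cast h1
      obtain ⟨a₀, ha₀⟩ := h ((t - 1) / 2) (by linarith)
      have h3 : UpD t := by
        refine upD_of_ev (a := max a₀ 1) (s := 1 + (t - 1) / 2) (le_max_right _ _) (by linarith) ?_
        filter_upwards [ha₀ (max a₀ 1) (le_max_left _ _)] with x hx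
        have := (abs_le.1 hx).2
        linarith
      exact lt_of_le_of_lt (uu_le h3) h2
    · apply le_antisymm ll_le_one
      apply le_of_forall_lt
      intro c hc
      obtain ⟨t, h1, h2⟩ := EReal.lt_iff_exists_real_btwn.1 hc
      have ht : t < 1 := by exact_mod_cast h2
      obtain ⟨a₀, ha₀⟩ := h ((1 - t) / 2) (by linarith)
      have h3 : DnD t := by
        refine dnD_of_ev (a := max a₀ 1) (s := 1 - (1 - t) / 2) (le_max_right _ _) (by linarith) ?_
        filter_upwards [ha₀ (max a₀ 1) (le_max_left _ _)] with x hx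
        have := (abs_le.1 hx).1
        linarith
      exact lt_of_lt_of_le h1 (le_ll h3)
  · rintro ⟨h1, h2⟩ ε hε
    obtain ⟨a₁, ha₁⟩ := upA_of_upC (upC_of_gt (s := 1 + ε) (by rw [h1]; exact_mod_cast (by linarith : (1 : ℝ) < 1 + ε)))
    obtain ⟨a₂, ha₂⟩ := dnA_of_dnC (dnC_of_lt (s := 1 - ε) (by rw [h2]; exact_mod_cast (by linarith : 1 - ε < (1 : ℝ))))
    refine ⟨max a₁ a₂, fun a ha => ?_⟩
    filter_upwards [ha₁ a ((le_max_left _ _).trans ha), ha₂ a ((le_max_right _ _).trans ha)] with x e1 e2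
    rw [abs_le]
    constructor <;> linarith

theorem F_iff : F ↔ uu = 1 ∧ ll = 1 := by
  constructor
  · intro h
    -- the uniform statement implies the one-sided ones
    have key : ∀ ε : ℝ, 0 < ε → UpC (1 + ε) ∧ DnC (1 - ε) := by
      intro ε hε
      obtain ⟨N, hN1, hN⟩ := h ε hε
      have h1 : ∀ x y : ℝ, ((max ⌈N⌉₊ 3 : ℕ) : ℝ) ≤ x → Real.log x ^ (max ⌈N⌉₊ 3) ≤ y → y ≤ x →
          |df x y / (y / Real.log x) - 1| ≤ ε ∧ 0 < y / Real.log x := by
        intro x y hx hy hyx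
        have hx3 : (3 : ℝ) ≤ x := le_trans (by exact_mod_cast le_max_right _ _) hx
        have hl1 : 1 ≤ Real.log x := by
          have h5 : Real.log (Real.exp 1) ≤ Real.log x := Real.log_le_log (Real.exp_pos 1) (by
            have := Real.exp_one_lt_d9
            linarith)
          rwa [Real.log_exp] at h5
        have hNx : N ≤ x := (Nat.le_ceil N).trans (le_trans (by exact_mod_cast le_max_left _ _) hx)
        have hy0 : 0 < y := lt_of_lt_of_le (by positivity) hy
        refine ⟨hN x y hNx ?_ hyx, by positivity⟩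
        refine le_trans ?_ hy
        rw [← Real.rpow_natCast]
        apply Real.rpow_le_rpow_of_exponent_le hl1
        exact (Nat.le_ceil N).trans (by exact_mod_cast le_max_left _ _)
      constructor
      · refine ⟨max ⌈N⌉₊ 3, fun x y hx hy hyx => ?_⟩
        obtain ⟨h2, h3⟩ := h1 x y hx hy hyx
        have h4 := (abs_le.1 h2).2
        rw [← div_le_iff₀ h3]
        linarith
      · refine ⟨max ⌈N⌉₊ 3, fun x y hx hy hyx => ?_⟩
        obtain ⟨h2, h3⟩ := h1 x y hx hy hyx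
        have h4 := (abs_le.1 h2).1
        rw [← le_div_iff₀ h3]
        linarith
    constructor
    · apply le_antisymm _ one_le_uu
      apply le_of_forall_gt
      intro c hc
      obtain ⟨t, h1, h2⟩ := EReal.lt_iff_exists_real_btwn.1 hc
      have ht : 1 < t := by exact_mod_cast h1
      have h3 := upD_of_upC (s := 1 + (t - 1) / 2) (s' := t) (by linarith) (key ((t - 1) / 2) (by linarith)).1
      exact lt_of_le_of_lt (uu_le h3) h2
    · apply le_antisymm ll_le_one
      apply le_of_forall_lt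
      intro c hc
      obtain ⟨t, h1, h2⟩ := EReal.lt_iff_exists_real_btwn.1 hc
      have ht : t < 1 := by exact_mod_cast h2
      have h3 := dnD_of_dnC (s := 1 - (1 - t) / 2) (s' := t) (by linarith) (key ((1 - t) / 2) (by linarith)).2
      exact lt_of_lt_of_le h1 (le_ll h3)
  · rintro ⟨h1, h2⟩ ε hε
    obtain ⟨N₁, hN₁⟩ := upC_of_gt (s := 1 + ε) (by rw [h1]; exact_mod_cast (by linarith : (1 : ℝ) < 1 + ε))
    obtain ⟨N₂, hN₂⟩ := dnC_of_lt (s := 1 - ε) (by rw [h2]; exact_mod_cast (by linarith : 1 - ε < (1 : ℝ)))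
    refine ⟨((max N₁ N₂ + 3 : ℕ) : ℝ), ?_, fun x y hx hy hyx => ?_⟩
    · push_cast
      have : (0 : ℝ) ≤ max (N₁ : ℝ) N₂ := le_max_of_le_left (Nat.cast_nonneg _)
      linarith
    have hx3 : (3 : ℝ) ≤ x := le_trans (by exact_mod_cast (show 3 ≤ max N₁ N₂ + 3 by omega)) hx
    have hl1 : 1 ≤ Real.log x := by
      have h5 : Real.log (Real.exp 1) ≤ Real.log x := Real.log_le_log (Real.exp_pos 1) (by
        have := Real.exp_one_lt_d9
        linarith)
      rwa [Real.log_exp] at h5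
    rw [Real.rpow_natCast] at hy
    have hy0 : 0 < y := lt_of_lt_of_le (by positivity) hy
    have e1 := hN₁ x y (le_trans (by exact_mod_cast (show N₁ ≤ max N₁ N₂ + 3 by omega)) hx)
      ((pow_le_pow_right₀ hl1 (by omega)).trans hy) hyx
    have e2 := hN₂ x y (le_trans (by exact_mod_cast (show N₂ ≤ max N₁ N₂ + 3 by omega)) hx)
      ((pow_le_pow_right₀ hl1 (by omega)).trans hy) hyx
    have h3 : 0 < y / Real.log x := by positivity
    rw [← div_le_iff₀ h3] at e1
    rw [← le_div_iff₀ h3] at e2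
    rw [abs_le]
    constructor <;> linarith

end Pool.Agent.X26.JF
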