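import Pool.Agent.X26.MS.Sun

/-!
# Primes in intervals longer than powers of the logarithm: persistence
-/

set_option autoImplicit false

namespace Pool.Agent.X26.JF

open Finset Filter Topology
open Pool.Agent.X26.MS (pr pr_add pr_le pr_mono up dn)

/-- from no large `n` are there at least `s h / log n` primes in `(n, n + h]` for all `1 ≤ h ≤ log ^ N n` -/
def UpD (s : ℝ) : Prop := ∃ N : ℕ, ∀ n : ℕ, N ≤ n → ∃ h : ℕ, 1 ≤ h ∧ (h : ℝ) ≤ Real.log n ^ N ∧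
  (pr n h : ℝ) < s * h / Real.log n

/-- from no large `n` are there at most `s h / log n` primes in `(n, n + h]` for all `1 ≤ h ≤ log ^ N n` -/
def DnD (s : ℝ) : Prop := ∃ N : ℕ, ∀ n : ℕ, N ≤ n → ∃ h : ℕ, 1 ≤ h ∧ (h : ℝ) ≤ Real.log n ^ N ∧
  s * h / Real.log n < (pr n h : ℝ)

/-- the number of primes in `(x, x + y]` -/
noncomputable def df (x y : ℝ) : ℝ := (Nat.primeCounting ⌊x + y⌋₊ : ℝ) - (Nat.primeCounting ⌊x⌋₊ : ℝ)

def UpC (s : ℝ) : Prop := ∃ N : ℕ, ∀ x y : ℝ, (N : ℝ) ≤ x → Real.log x ^ N ≤ y → y ≤ x → df x y ≤ s * (y / Real.log x)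

def DnC (s : ℝ) : Prop := ∃ N : ℕ, ∀ x y : ℝ, (N : ℝ) ≤ x → Real.log x ^ N ≤ y → y ≤ x → s * (y / Real.log x) ≤ df x y

theorem pc_add (n h : ℕ) : Nat.primeCounting (n + h) = Nat.primeCounting n + pr n h := by
  have e : ∀ m : ℕ, Nat.primeCounting m = ((Icc 1 m).filter Nat.Prime).card := by
    intro m
    rw [Nat.primeCounting, Nat.primeCounting', Nat.count_eq_card_filter_range]
    congr 1
    ext p
    simp only [mem_filter, mem_range, mem_Icc]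
    constructor
    · rintro ⟨h1, h2⟩
      exact ⟨⟨h2.pos, by omega⟩, h2⟩
    · rintro ⟨⟨_, h1⟩, h2⟩
      exact ⟨by omega, h2⟩
  rw [e, e]
  unfold pr
  rw [← card_union_of_disjoint]
  · congr 1
    rw [← filter_union]
    congr 1
    ext u
    simp only [mem_union, mem_Ioc, mem_Icc]
    omega
  · rw [Finset.disjoint_left]
    intro u hu hv
    rw [mem_filter, mem_Icc] at hu
    rw [mem_filter, mem_Ioc] at hv
    omega

theorem df_eq {x y : ℝ} (hy : 0 ≤ y) :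
    df x y = (pr ⌊x⌋₊ (⌊x + y⌋₊ - ⌊x⌋₊) : ℝ) := by
  have h1 : ⌊x⌋₊ ≤ ⌊x + y⌋₊ := Nat.floor_le_floor (by linarith)
  have h2 := pc_add ⌊x⌋₊ (⌊x + y⌋₊ - ⌊x⌋₊)
  rw [Nat.add_sub_cancel' h1] at h2
  unfold df
  rw [h2]
  push_cast
  ring

theorem df_nonneg {x y : ℝ} (hy : 0 ≤ y) : 0 ≤ df x y := by
  rw [df_eq hy]
  positivity

theorem df_nat (n : ℕ) {y : ℝ} (hy : 0 ≤ y) : df n y = (pr n ⌊y⌋₊ : ℝ) := by
  rw [df_eq hy, Nat.floor_natCast]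
  congr 2
  have : ⌊(n : ℝ) + y⌋₊ = n + ⌊y⌋₊ := by
    rw [add_comm (n : ℝ) y, Nat.floor_add_natCast hy, add_comm]
  omega

/-- `log n` is large for large `n` -/
theorem log_big (C : ℝ) : ∃ n₀ : ℕ, ∀ x : ℝ, (n₀ : ℝ) ≤ x → C ≤ Real.log x := by
  refine ⟨⌈Real.exp C⌉₊, fun x hx => ?_⟩
  have h1 : Real.exp C ≤ x := (Nat.le_ceil _).trans hx
  have h2 := Real.log_le_log (Real.exp_pos C) h1
  rwa [Real.log_exp] at h2

theorem pow_log_le (N : ℕ) : ∃ n₀ : ℕ, ∀ x : ℝ, (n₀ : ℝ) ≤ x → Real.log x ^ N ≤ x := by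
  have h1 : ∀ᶠ x : ℝ in atTop, Real.log x ^ N ≤ x := by
    have h2 := Real.isLittleO_pow_log_id_atTop (n := N)
    filter_upwards [h2.bound (c := 1) one_pos, eventually_ge_atTop (1 : ℝ)] with x hx hx1
    rw [one_mul, Real.norm_eq_abs, Real.norm_eq_abs, id, abs_of_nonneg (by linarith : (0 : ℝ) ≤ x)] at hx
    exact (le_abs_self _).trans hx
  obtain ⟨a, ha⟩ := eventually_atTop.1 h1
  exact ⟨⌈a⌉₊, fun x hx => ha x ((Nat.le_ceil a).trans hx)⟩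

theorem upD_of_upC {s s' : ℝ} (hs : s < s') (h : UpC s) : UpD s' := by
  obtain ⟨N, hN⟩ := h
  obtain ⟨n₁, h1⟩ := log_big 2
  obtain ⟨n₂, h2⟩ := pow_log_le (N + 1)
  refine ⟨max (N + 1) (max n₁ n₂), fun n hn => ?_⟩
  have e0 : N + 1 ≤ n := (le_max_left _ _).trans hn
  have e1 := h1 n (by exact_mod_cast (le_max_left _ _).trans ((le_max_right _ _).trans hn))
  have e2 := h2 n (by exact_mod_cast (le_max_right _ _).trans ((le_max_right _ _).trans hn))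
  obtain ⟨ℓ, hℓ⟩ : ∃ ℓ : ℝ, ℓ = Real.log n := ⟨_, rfl⟩
  rw [← hℓ] at e1 e2 ⊢
  have hp : 1 ≤ ℓ ^ N := one_le_pow₀ (by linarith)
  have hc1 : ℓ ^ N ≤ (⌈ℓ ^ N⌉₊ : ℝ) := Nat.le_ceil _
  have hc2 : (⌈ℓ ^ N⌉₊ : ℝ) ≤ ℓ ^ (N + 1) := by
    have := (Nat.ceil_lt_add_one (show 0 ≤ ℓ ^ N by positivity)).le
    rw [pow_succ]
    nlinarith
  have hh1 : (1 : ℝ) ≤ (⌈ℓ ^ N⌉₊ : ℝ) := hp.trans hc1
  refine ⟨⌈ℓ ^ N⌉₊, by exact_mod_cast hh1, ?_, ?_⟩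
  · exact hc2.trans (pow_le_pow_right₀ (by linarith) (le_max_left _ _))
  · have h3 := hN n (⌈ℓ ^ N⌉₊ : ℝ) (by exact_mod_cast (show N ≤ n by omega)) (by rw [← hℓ]; exact hc1)
      (hc2.trans e2)
    rw [df_nat n (by positivity), Nat.floor_natCast, ← hℓ] at h3
    refine lt_of_le_of_lt h3 ?_
    rw [mul_div_assoc]
    have h4 : 0 < (⌈ℓ ^ N⌉₊ : ℝ) / ℓ := by positivity
    exact mul_lt_mul_of_pos_right hs h4

theorem dnD_of_dnC {s s' : ℝ} (hs : s' < s) (h : DnC s) : DnD s' := by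
  obtain ⟨N, hN⟩ := h
  obtain ⟨n₁, h1⟩ := log_big 2
  obtain ⟨n₂, h2⟩ := pow_log_le (N + 1)
  refine ⟨max (N + 1) (max n₁ n₂), fun n hn => ?_⟩
  have e0 : N + 1 ≤ n := (le_max_left _ _).trans hn
  have e1 := h1 n (by exact_mod_cast (le_max_left _ _).trans ((le_max_right _ _).trans hn))
  have e2 := h2 n (by exact_mod_cast (le_max_right _ _).trans ((le_max_right _ _).trans hn))
  obtain ⟨ℓ, hℓ⟩ : ∃ ℓ : ℝ, ℓ = Real.log n := ⟨_, rfl⟩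
  rw [← hℓ] at e1 e2 ⊢
  have hp : 1 ≤ ℓ ^ N := one_le_pow₀ (by linarith)
  have hc1 : ℓ ^ N ≤ (⌈ℓ ^ N⌉₊ : ℝ) := Nat.le_ceil _
  have hc2 : (⌈ℓ ^ N⌉₊ : ℝ) ≤ ℓ ^ (N + 1) := by
    have := (Nat.ceil_lt_add_one (show 0 ≤ ℓ ^ N by positivity)).le
    rw [pow_succ]
    nlinarith
  have hh1 : (1 : ℝ) ≤ (⌈ℓ ^ N⌉₊ : ℝ) := hp.trans hc1
  refine ⟨⌈ℓ ^ N⌉₊, by exact_mod_cast hh1, ?_, ?_⟩
  · exact hc2.trans (pow_le_pow_right₀ (by linarith) (le_max_left _ _))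
  · have h3 := hN n (⌈ℓ ^ N⌉₊ : ℝ) (by exact_mod_cast (show N ≤ n by omega)) (by rw [← hℓ]; exact hc1)
      (hc2.trans e2)
    rw [df_nat n (by positivity), Nat.floor_natCast, ← hℓ] at h3
    refine lt_of_lt_of_le ?_ h3
    rw [mul_div_assoc]
    have h4 : 0 < (⌈ℓ ^ N⌉₊ : ℝ) / ℓ := by positivity
    exact mul_lt_mul_of_pos_right hs h4

/-- the parameters of the windows -/
theorem window {N : ℕ} {x y ℓ : ℝ} (hℓ : ℓ = Real.log x) (hx : 3 ≤ x) (h4 : (2 : ℝ) ^ (N + 2) ≤ ℓ)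
    (hy : ℓ ^ (N + 3) ≤ y) (hyx : y ≤ x) :
    1 ≤ ℓ ∧ ((⌊x + y⌋₊ - ⌊x⌋₊ : ℕ) : ℝ) ≤ y + 1 ∧ y - 1 ≤ ((⌊x + y⌋₊ - ⌊x⌋₊ : ℕ) : ℝ) ∧
    ((⌈(2 * ℓ) ^ N⌉₊ : ℕ) : ℝ) ≤ 2 ^ (N + 1) * ℓ ^ N ∧ ⌈(2 * ℓ) ^ N⌉₊ ≤ ⌊x + y⌋₊ - ⌊x⌋₊ ∧ ℓ ^ 2 ≤ y ∧
    (∀ z : ℕ, ⌊x⌋₊ ≤ z → z ≤ ⌊x + y⌋₊ → Real.log z ≤ ℓ + 1 ∧ ℓ - 1 ≤ Real.log z ∧ Real.log z ≤ 2 * ℓ ∧
      Real.log ⌊x⌋₊ ≤ Real.log z) ∧ ℓ - 1 ≤ Real.log ⌊x⌋₊ := by
  have h2N : (4 : ℝ) ≤ 2 ^ (N + 2) := by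
    have : (1 : ℝ) ≤ 2 ^ N := one_le_pow₀ (by norm_num)
    rw [pow_add]
    linarith
  have hℓ4 : 4 ≤ ℓ := h2N.trans h4
  have hℓ1 : 1 ≤ ℓ := by linarith
  have hy1 : ℓ ^ 2 ≤ y := (pow_le_pow_right₀ hℓ1 (by omega)).trans hy
  have hy16 : 16 ≤ y := by nlinarith
  have hy0 : 0 ≤ y := by linarith
  have hfl : ⌊x⌋₊ ≤ ⌊x + y⌋₊ := Nat.floor_le_floor (by linarith)
  have hf1 := Nat.floor_le (show 0 ≤ x by linarith)
  have hf2 := Nat.lt_floor_add_one x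
  have hf3 := Nat.floor_le (show 0 ≤ x + y by linarith)
  have hf4 := Nat.lt_floor_add_one (x + y)
  have hcast : ((⌊x + y⌋₊ - ⌊x⌋₊ : ℕ) : ℝ) = (⌊x + y⌋₊ : ℝ) - (⌊x⌋₊ : ℝ) := by
    rw [Nat.cast_sub hfl]
  have hH : ((⌈(2 * ℓ) ^ N⌉₊ : ℕ) : ℝ) ≤ 2 ^ (N + 1) * ℓ ^ N := by
    have h5 := (Nat.ceil_lt_add_one (show 0 ≤ (2 * ℓ) ^ N by positivity)).le
    have h6 : (1 : ℝ) ≤ (2 * ℓ) ^ N := one_le_pow₀ (by linarith)
    have h7 : (2 * ℓ) ^ N = 2 ^ N * ℓ ^ N := mul_pow _ _ _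
    rw [pow_succ]
    rw [h7] at h5 h6 ⊢
    linarith
  have hlog3 : Real.log 3 ≤ 2 := by
    have := Real.log_le_sub_one_of_pos (show (0 : ℝ) < 3 by norm_num)
    linarith
  have hlo : ℓ - 1 ≤ Real.log ⌊x⌋₊ := by
    have h5 : x / Real.exp 1 ≤ (⌊x⌋₊ : ℝ) := by
      rw [div_le_iff₀ (Real.exp_pos 1)]
      have h6 : (2 : ℝ) ≤ Real.exp 1 := by have := Real.add_one_le_exp (1 : ℝ); linarith
      nlinarith
    have h7 : Real.log (x / Real.exp 1) = ℓ - 1 := by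
      rw [Real.log_div (by linarith) (Real.exp_ne_zero 1), Real.log_exp, hℓ]
    rw [← h7]
    exact Real.log_le_log (by positivity) h5
  refine ⟨hℓ1, by rw [hcast]; linarith, by rw [hcast]; linarith, hH, ?_, hy1, ?_, hlo⟩
  · have h5 : ((⌈(2 * ℓ) ^ N⌉₊ : ℕ) : ℝ) ≤ ((⌊x + y⌋₊ - ⌊x⌋₊ : ℕ) : ℝ) := by
      rw [hcast]
      have h6 : 2 ^ (N + 1) * ℓ ^ N ≤ y / 2 := by
        have h7 : 2 ^ (N + 1) * ℓ ^ N ≤ ℓ ^ (N + 1) / 2 := by
          have h8 : ℓ ^ (N + 1) = ℓ * ℓ ^ N := by ring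
          rw [h8]
          have h9 : (2 : ℝ) ^ (N + 1) * 2 ≤ ℓ := by rw [← pow_succ]; exact h4
          have h10 : 0 ≤ ℓ ^ N := by positivity
          nlinarith
        have h8 : ℓ ^ (N + 1) ≤ ℓ ^ (N + 3) := pow_le_pow_right₀ hℓ1 (by omega)
        linarith
      linarith
    exact_mod_cast h5
  · intro z hz1 hz2
    have hz1' : (⌊x⌋₊ : ℝ) ≤ z := by exact_mod_cast hz1
    have hz2' : (z : ℝ) ≤ ⌊x + y⌋₊ := by exact_mod_cast hz2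
    have hz0 : (0 : ℝ) < z := by linarith
    have hfx : (0 : ℝ) < ⌊x⌋₊ := by linarith
    have h5 := Real.log_le_log hfx hz1'
    have h6 : Real.log z ≤ ℓ + 1 := by
      have h7 : Real.log (x * Real.exp 1) = ℓ + 1 := by
        rw [Real.log_mul (by linarith) (Real.exp_ne_zero 1), Real.log_exp, hℓ]
      rw [← h7]
      apply Real.log_le_log hz0
      have h6 : (2 : ℝ) ≤ Real.exp 1 := by have := Real.add_one_le_exp (1 : ℝ); linarith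
      nlinarith
    exact ⟨h6, hlo.trans h5, by linarith, h5⟩

theorem upC_of_upD {s s' : ℝ} (hs0 : 0 ≤ s) (hs : s < s') (h : UpD s) : UpC s' := by
  obtain ⟨N, hN⟩ := h
  obtain ⟨n₁, h1⟩ := log_big (max (2 ^ (N + 2)) (max (1 + 4 * s / (s' - s)) (2 ^ (N + 2) / (s' - s))))
  refine ⟨max (N + 3) n₁, fun x y hx hy hyx => ?_⟩
  have e0 : ((N + 3 : ℕ) : ℝ) ≤ x := le_trans (by exact_mod_cast le_max_left _ _) hx
  have e1 := h1 x (le_trans (by exact_mod_cast le_max_right _ _) hx)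
  obtain ⟨ℓ, hℓ⟩ : ∃ ℓ : ℝ, ℓ = Real.log x := ⟨_, rfl⟩
  rw [← hℓ] at e1 hy ⊢
  have hx3 : 3 ≤ x := by push_cast at e0; have : (0 : ℝ) ≤ N := Nat.cast_nonneg N; linarith
  have l1 := (le_max_left _ _).trans e1
  have l2 := (le_max_left _ _).trans ((le_max_right _ _).trans e1)
  have l3 := (le_max_right _ _).trans ((le_max_right _ _).trans e1)
  have h2N : (4 : ℝ) ≤ 2 ^ (N + 2) := by
    have : (1 : ℝ) ≤ 2 ^ N := one_le_pow₀ (by norm_num)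
    rw [pow_add]
    linarith
  have hℓ4 : 4 ≤ ℓ := h2N.trans l1
  have hy' : ℓ ^ (N + 3) ≤ y := (pow_le_pow_right₀ (by linarith) (le_max_left _ _)).trans hy
  obtain ⟨w1, w2, w3, w4, w5, w6, w7, w8⟩ := window hℓ hx3 l1 hy' hyx
  have hy0 : 0 ≤ y := le_trans (by positivity) w6
  obtain ⟨n, hn⟩ : ∃ n : ℕ, n = ⌊x⌋₊ := ⟨_, rfl⟩
  obtain ⟨M, hM⟩ : ∃ M : ℕ, M = ⌊x + y⌋₊ - ⌊x⌋₊ := ⟨_, rfl⟩
  obtain ⟨H, hH⟩ : ∃ H : ℕ, H = ⌈(2 * ℓ) ^ N⌉₊ := ⟨_, rfl⟩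
  have hfl : ⌊x⌋₊ ≤ ⌊x + y⌋₊ := Nat.floor_le_floor (by linarith)
  rw [df_eq hy0, ← hM, ← hn]
  rw [← hM] at w2 w3 w5
  rw [← hH] at w4 w5
  rw [← hn] at w7 w8
  have hln : 0 < Real.log n := by linarith
  have key : (pr n M : ℝ) ≤ s / Real.log n * M + H := by
    by_contra hcon
    rw [not_le] at hcon
    obtain ⟨z, z1, z2, z3⟩ := up n M H (s / Real.log n) (by positivity) w5 hcon
    have hnN : N ≤ n := by
      rw [hn]
      apply Nat.le_floor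
      push_cast at e0
      linarith
    obtain ⟨g, g1, g2, g3⟩ := hN z (hnN.trans z1)
    obtain ⟨v1, v2, v3, v4⟩ := w7 z z1 (by omega)
    have hgH : g ≤ H := by
      have : (g : ℝ) ≤ H := by
        refine g2.trans ?_
        refine le_trans ?_ (hH ▸ Nat.le_ceil _)
        exact pow_le_pow_left₀ (by linarith) v3 N
      exact_mod_cast this
    have h5 := z3 g g1 hgH
    have hlz : 0 < Real.log z := by linarith
    have h6 : s * g / Real.log z ≤ s / Real.log n * g := by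
      rw [div_mul_eq_mul_div]
      exact div_le_div_of_nonneg_left (by positivity) hln v4
    linarith
  refine key.trans ?_
  have hss : 0 < s' - s := by linarith
  have h5 : s / Real.log n * M ≤ s / (ℓ - 1) * (y + 1) := by
    apply mul_le_mul _ w2 (Nat.cast_nonneg _) (by apply div_nonneg hs0; linarith)
    exact div_le_div_of_nonneg_left hs0 (by linarith) w8
  have h6 : s / (ℓ - 1) * (y + 1) ≤ (s + (s' - s) / 2) * (y / ℓ) := by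
    have h7 : 4 * s ≤ (s' - s) * (ℓ - 1) := by
      have : 4 * s / (s' - s) ≤ ℓ - 1 := by linarith
      rw [div_le_iff₀ hss] at this
      linarith
    have hl1 : 0 < ℓ - 1 := by linarith
    have hl0 : 0 < ℓ := by linarith
    rw [div_mul_eq_mul_div, div_le_iff₀ hl1]
    have e2 : (s + (s' - s) / 2) * (y / ℓ) * (ℓ - 1) = (s + (s' - s) / 2) * y * (ℓ - 1) / ℓ := by ring
    rw [e2, le_div_iff₀ hl0]
    have h8 : ℓ ≤ y := by nlinarith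
    -- s (y+1) ℓ ≤ (s + (s'-s)/2) y (ℓ-1)
    have h9 : s * (y + 1) * ℓ ≤ s * (y * (ℓ + 1)) := by
      have : (y + 1) * ℓ ≤ y * (ℓ + 1) := by nlinarith
      calc s * (y + 1) * ℓ = s * ((y + 1) * ℓ) := by ring
        _ ≤ _ := mul_le_mul_of_nonneg_left this hs0
    have h10 : s * (y * (ℓ + 1)) ≤ (s + (s' - s) / 2) * y * (ℓ - 1) := by
      have : (s + (s' - s) / 2) * y * (ℓ - 1) - s * (y * (ℓ + 1)) = y * ((s' - s) / 2 * (ℓ - 1) - 2 * s) := by ring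
      have h11 : 0 ≤ y * ((s' - s) / 2 * (ℓ - 1) - 2 * s) := by
        apply mul_nonneg hy0
        linarith
      linarith
    linarith
  have h7 : (H : ℝ) ≤ (s' - s) / 2 * (y / ℓ) := by
    have hl0 : 0 < ℓ := by linarith
    have h8 : (2 : ℝ) ^ (N + 2) ≤ (s' - s) * ℓ := by
      rw [div_le_iff₀ hss] at l3
      linarith
    have e2 : (s' - s) / 2 * (y / ℓ) = ((s' - s) / 2 * y) / ℓ := by ring
    rw [e2, le_div_iff₀ hl0]
    have h9 : (H : ℝ) * ℓ ≤ 2 ^ (N + 1) * ℓ ^ N * ℓ := mul_le_mul_of_nonneg_right w4 hl0.le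
    have h10 : (2 : ℝ) ^ (N + 1) * ℓ ^ N * ℓ ≤ (s' - s) / 2 * ℓ ^ (N + 2) := by
      have e3 : (s' - s) / 2 * ℓ ^ (N + 2) = ((s' - s) * ℓ) / 2 * ℓ ^ (N + 1) := by ring
      have e4 : (2 : ℝ) ^ (N + 1) * ℓ ^ N * ℓ = 2 ^ (N + 2) / 2 * ℓ ^ (N + 1) := by ring
      rw [e3, e4]
      apply mul_le_mul_of_nonneg_right _ (by positivity)
      linarith
    have h11 : (s' - s) / 2 * ℓ ^ (N + 2) ≤ (s' - s) / 2 * y := by
      apply mul_le_mul_of_nonneg_left _ (by linarith)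
      exact (pow_le_pow_right₀ w1 (by omega)).trans hy'
    linarith
  calc s / Real.log n * M + H ≤ (s + (s' - s) / 2) * (y / ℓ) + (s' - s) / 2 * (y / ℓ) := by linarith
    _ = s' * (y / ℓ) := by ring

theorem dnC_of_dnD {s s' : ℝ} (hs0 : 0 ≤ s) (hs : s' < s) (h : DnD s) : DnC s' := by
  obtain ⟨N, hN⟩ := h
  obtain ⟨n₁, h1⟩ := log_big (max (2 ^ (N + 2)) ((|s'| + s * 2 ^ (N + 2)) / (s - s')))
  refine ⟨max (N + 3) n₁, fun x y hx hy hyx => ?_⟩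
  have e0 : ((N + 3 : ℕ) : ℝ) ≤ x := le_trans (by exact_mod_cast le_max_left _ _) hx
  have e1 := h1 x (le_trans (by exact_mod_cast le_max_right _ _) hx)
  obtain ⟨ℓ, hℓ⟩ : ∃ ℓ : ℝ, ℓ = Real.log x := ⟨_, rfl⟩
  rw [← hℓ] at e1 hy ⊢
  have hx3 : 3 ≤ x := by push_cast at e0; have : (0 : ℝ) ≤ N := Nat.cast_nonneg N; linarith
  have l1 := (le_max_left _ _).trans e1
  have l2 := (le_max_right _ _).trans e1
  have h2N : (4 : ℝ) ≤ 2 ^ (N + 2) := by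
    have : (1 : ℝ) ≤ 2 ^ N := one_le_pow₀ (by norm_num)
    rw [pow_add]
    linarith
  have hℓ4 : 4 ≤ ℓ := h2N.trans l1
  have hy' : ℓ ^ (N + 3) ≤ y := (pow_le_pow_right₀ (by linarith) (le_max_left _ _)).trans hy
  obtain ⟨w1, w2, w3, w4, w5, w6, w7, w8⟩ := window hℓ hx3 l1 hy' hyx
  have hy0 : 0 ≤ y := le_trans (by positivity) w6
  obtain ⟨n, hn⟩ : ∃ n : ℕ, n = ⌊x⌋₊ := ⟨_, rfl⟩
  obtain ⟨M, hM⟩ : ∃ M : ℕ, M = ⌊x + y⌋₊ - ⌊x⌋₊ := ⟨_, rfl⟩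
  obtain ⟨H, hH⟩ : ∃ H : ℕ, H = ⌈(2 * ℓ) ^ N⌉₊ := ⟨_, rfl⟩
  have hfl : ⌊x⌋₊ ≤ ⌊x + y⌋₊ := Nat.floor_le_floor (by linarith)
  rw [df_eq hy0, ← hM, ← hn]
  rw [← hM] at w2 w3 w5
  rw [← hH] at w4 w5
  rw [← hn] at w7 w8
  have hl0 : 0 < ℓ := by linarith
  have key : s / (ℓ + 1) * (M - H) ≤ (pr n M : ℝ) := by
    by_contra hcon
    rw [not_le] at hcon
    obtain ⟨z, z1, z2, z3⟩ := dn n M H (s / (ℓ + 1)) (by positivity) w5 hcon
    have hnN : N ≤ n := by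
      rw [hn]
      apply Nat.le_floor
      push_cast at e0
      linarith
    obtain ⟨g, g1, g2, g3⟩ := hN z (hnN.trans z1)
    obtain ⟨v1, v2, v3, v4⟩ := w7 z z1 (by omega)
    have hgH : g ≤ H := by
      have : (g : ℝ) ≤ H := by
        refine g2.trans ?_
        refine le_trans ?_ (hH ▸ Nat.le_ceil _)
        exact pow_le_pow_left₀ (by linarith) v3 N
      exact_mod_cast this
    have h5 := z3 g g1 hgH
    have hlz : 0 < Real.log z := by linarith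
    have h6 : s / (ℓ + 1) * g ≤ s * g / Real.log z := by
      rw [div_mul_eq_mul_div]
      exact div_le_div_of_nonneg_left (by positivity) hlz v1
    linarith
  refine le_trans ?_ key
  have hss : 0 < s - s' := by linarith
  have h5 : s / (ℓ + 1) * (y - 2 ^ (N + 2) * ℓ ^ N) ≤ s / (ℓ + 1) * (M - H) := by
    apply mul_le_mul_of_nonneg_left _ (by positivity)
    have h6 : (1 : ℝ) ≤ 2 ^ (N + 1) * ℓ ^ N := by
      have : (1 : ℝ) ≤ 2 ^ (N + 1) := one_le_pow₀ (by norm_num)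
      have : (1 : ℝ) ≤ ℓ ^ N := one_le_pow₀ w1
      nlinarith
    have e2 : (2 : ℝ) ^ (N + 2) * ℓ ^ N = 2 ^ (N + 1) * ℓ ^ N + 2 ^ (N + 1) * ℓ ^ N := by ring
    rw [e2]
    linarith
  refine le_trans ?_ h5
  rw [div_mul_eq_mul_div, le_div_iff₀ (by linarith)]
  have e3 : s' * (y / ℓ) * (ℓ + 1) = s' * y * (ℓ + 1) / ℓ := by ring
  rw [e3, div_le_iff₀ hl0]
  have h6 : |s'| + s * 2 ^ (N + 2) ≤ ℓ * (s - s') := by
    rwa [div_le_iff₀ hss] at l2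
  have h7 : ℓ ^ N * ℓ ≤ y := by
    refine le_trans ?_ hy'
    rw [← pow_succ]
    exact pow_le_pow_right₀ w1 (by omega)
  have h8 : s * 2 ^ (N + 2) * (ℓ ^ N * ℓ) ≤ s * 2 ^ (N + 2) * y :=
    mul_le_mul_of_nonneg_left h7 (by positivity)
  have h9 : s' * y ≤ |s'| * y := mul_le_mul_of_nonneg_right (le_abs_self _) hy0
  have h10 : (|s'| + s * 2 ^ (N + 2)) * y ≤ ℓ * (s - s') * y := mul_le_mul_of_nonneg_right h6 hy0
  nlinarith

theorem upD_mono {s s' : ℝ} (hs : s ≤ s') (h : UpD s) : UpD s' := by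
  obtain ⟨N, hN⟩ := h
  refine ⟨max N 3, fun n hn => ?_⟩
  obtain ⟨g, g1, g2, g3⟩ := hN n ((le_max_left _ _).trans hn)
  have hn3 : 3 ≤ n := (le_max_right _ _).trans hn
  have hl : 0 < Real.log n := Real.log_pos (by exact_mod_cast (show 1 < n by omega))
  have hl1 : 1 ≤ Real.log n := by
    have h5 : Real.log (Real.exp 1) ≤ Real.log n := Real.log_le_log (Real.exp_pos 1) (by
      have := Real.exp_one_lt_d9
      have h6 : (3 : ℝ) ≤ n := by exact_mod_cast hn3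
      linarith)
    rwa [Real.log_exp] at h5
  refine ⟨g, g1, g2.trans (pow_le_pow_right₀ hl1 (le_max_left _ _)), lt_of_lt_of_le g3 ?_⟩
  exact div_le_div_of_nonneg_right (mul_le_mul_of_nonneg_right hs (Nat.cast_nonneg _)) hl.le

theorem dnD_mono {s s' : ℝ} (hs : s' ≤ s) (h : DnD s) : DnD s' := by
  obtain ⟨N, hN⟩ := h
  refine ⟨max N 3, fun n hn => ?_⟩
  obtain ⟨g, g1, g2, g3⟩ := hN n ((le_max_left _ _).trans hn)
  have hn3 : 3 ≤ n := (le_max_right _ _).trans hn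
  have hl : 0 < Real.log n := Real.log_pos (by exact_mod_cast (show 1 < n by omega))
  have hl1 : 1 ≤ Real.log n := by
    have h5 : Real.log (Real.exp 1) ≤ Real.log n := Real.log_le_log (Real.exp_pos 1) (by
      have := Real.exp_one_lt_d9
      have h6 : (3 : ℝ) ≤ n := by exact_mod_cast hn3
      linarith)
    rwa [Real.log_exp] at h5
  refine ⟨g, g1, g2.trans (pow_le_pow_right₀ hl1 (le_max_left _ _)), lt_of_le_of_lt ?_ g3⟩
  exact div_le_div_of_nonneg_right (mul_le_mul_of_nonneg_right hs (Nat.cast_nonneg _)) hl.le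

theorem upD_pos {s : ℝ} (h : UpD s) : 0 < s := by
  obtain ⟨N, hN⟩ := h
  obtain ⟨g, g1, g2, g3⟩ := hN (max N 3) (le_max_left _ _)
  have hl : 0 < Real.log ((max N 3 : ℕ) : ℝ) :=
    Real.log_pos (by exact_mod_cast (show 1 < max N 3 by omega))
  by_contra hcon
  rw [not_lt] at hcon
  have h1 : s * g / Real.log ((max N 3 : ℕ) : ℝ) ≤ 0 :=
    div_nonpos_of_nonpos_of_nonneg (mul_nonpos_of_nonpos_of_nonneg hcon (Nat.cast_nonneg _)) hl.le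
  have h2 : (0 : ℝ) ≤ pr (max N 3) g := Nat.cast_nonneg _
  linarith

theorem dnD_neg {s : ℝ} (hs : s < 0) : DnD s := by
  refine ⟨3, fun n hn => ⟨1, le_rfl, ?_, ?_⟩⟩
  · have hl1 : 1 ≤ Real.log n := by
      have h5 : Real.log (Real.exp 1) ≤ Real.log n := Real.log_le_log (Real.exp_pos 1) (by
        have := Real.exp_one_lt_d9
        have h6 : (3 : ℝ) ≤ n := by exact_mod_cast hn
        linarith)
      rwa [Real.log_exp] at h5
    rw [Nat.cast_one]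
    exact one_le_pow₀ hl1
  · have hl : 0 < Real.log n := Real.log_pos (by exact_mod_cast (show 1 < n by omega))
    have h1 : s * ((1 : ℕ) : ℝ) / Real.log n < 0 := by
      rw [Nat.cast_one, mul_one]
      exact div_neg_of_neg_of_pos hs hl
    have h2 : (0 : ℝ) ≤ pr n 1 := Nat.cast_nonneg _
    linarith

end Pool.Agent.X26.JF
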