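import Pool.Agent.X26.JF.Core

/-!
# The limits of the upper and lower constants, and their persistence
-/

set_option autoImplicit false

namespace Pool.Agent.X26.JF

open Finset Filter Topology
open Pool.Agent.X26.MS (pr pr_add pr_le pr_mono up dn)

/-- `R_h(x)` for `h = log ^ a x` -/
noncomputable def RR (a x : ℝ) : ℝ := Real.log x / Real.log x ^ a * df x (Real.log x ^ a)

def UpA (s : ℝ) : Prop := ∃ a₀ : ℝ, ∀ a : ℝ, a₀ ≤ a → ∀ᶠ x : ℝ in atTop, RR a x ≤ s

def DnA (s : ℝ) : Prop := ∃ a₀ : ℝ, ∀ a : ℝ, a₀ ≤ a → ∀ᶠ x : ℝ in atTop, s ≤ RR a x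

/-- the large `x` -/
theorem ev_range (a : ℝ) (N : ℕ) (ha : (N : ℝ) ≤ a) : ∀ᶠ x : ℝ in atTop, (N : ℝ) ≤ x ∧ 1 ≤ Real.log x ∧
    Real.log x ^ N ≤ Real.log x ^ a ∧ Real.log x ^ a ≤ x := by
  have h1 : Tendsto Real.log atTop atTop := Real.tendsto_log_atTop
  have h2 : ∀ᶠ x : ℝ in atTop, Real.log x ^ a ≤ x := by
    have h3 : (fun x : ℝ => Real.log x ^ a) =o[atTop] fun x : ℝ => x ^ (1 : ℝ) :=
      isLittleO_log_rpow_rpow_atTop a one_pos
    filter_upwards [h3.bound (c := 1) one_pos, eventually_ge_atTop (1 : ℝ)] with x hx hx1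
    rw [one_mul, Real.rpow_one, Real.norm_eq_abs, Real.norm_eq_abs, abs_of_nonneg (by linarith : (0 : ℝ) ≤ x)] at hx
    exact (le_abs_self _).trans hx
  filter_upwards [h2, eventually_ge_atTop (N : ℝ), h1.eventually_ge_atTop 1] with x e1 e2 e3
  refine ⟨e2, e3, ?_, e1⟩
  rw [← Real.rpow_natCast]
  exact Real.rpow_le_rpow_of_exponent_le e3 ha

theorem upA_of_upC {s : ℝ} (h : UpC s) : UpA s := by
  obtain ⟨N, hN⟩ := h
  refine ⟨N, fun a ha => ?_⟩
  filter_upwards [ev_range a N ha] with x hx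
  obtain ⟨h1, h2, h3, h4⟩ := hx
  have h5 := hN x (Real.log x ^ a) h1 h3 h4
  unfold RR
  have hl : 0 < Real.log x := by linarith
  have hla : 0 < Real.log x ^ a := Real.rpow_pos_of_pos hl a
  calc Real.log x / Real.log x ^ a * df x (Real.log x ^ a)
      ≤ Real.log x / Real.log x ^ a * (s * (Real.log x ^ a / Real.log x)) :=
        mul_le_mul_of_nonneg_left h5 (by positivity)
    _ = s := by field_simp

theorem dnA_of_dnC {s : ℝ} (h : DnC s) : DnA s := by
  obtain ⟨N, hN⟩ := h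
  refine ⟨N, fun a ha => ?_⟩
  filter_upwards [ev_range a N ha] with x hx
  obtain ⟨h1, h2, h3, h4⟩ := hx
  have h5 := hN x (Real.log x ^ a) h1 h3 h4
  unfold RR
  have hl : 0 < Real.log x := by linarith
  have hla : 0 < Real.log x ^ a := Real.rpow_pos_of_pos hl a
  calc s = Real.log x / Real.log x ^ a * (s * (Real.log x ^ a / Real.log x)) := by field_simp
    _ ≤ Real.log x / Real.log x ^ a * df x (Real.log x ^ a) :=
        mul_le_mul_of_nonneg_left h5 (by positivity)

/-- one exponent is enough -/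
theorem upD_of_ev {a s s' : ℝ} (ha : 1 ≤ a) (hs : s < s') (h : ∀ᶠ x : ℝ in atTop, RR a x ≤ s) : UpD s' := by
  have hss : 0 < s' - s := by linarith
  have h0 : ∀ᶠ x : ℝ in atTop, RR a x ≤ s ∧ 1 + |s| / (s' - s) + 1 ≤ Real.log x :=
    h.and (Real.tendsto_log_atTop.eventually_ge_atTop _)
  obtain ⟨b, hb⟩ := eventually_atTop.1 h0
  refine ⟨max ⌈a⌉₊ ⌈b⌉₊, fun n hn => ?_⟩
  have hbn : b ≤ n := (Nat.le_ceil b).trans (by exact_mod_cast (le_max_right _ _).trans hn)
  obtain ⟨h1, h2⟩ := hb n hbn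
  have hq : 0 ≤ |s| / (s' - s) := by positivity
  have hl1 : 1 ≤ Real.log n := by linarith
  have hl0 : 0 < Real.log n := by linarith
  obtain ⟨y, hy⟩ : ∃ y : ℝ, y = Real.log n ^ a := ⟨_, rfl⟩
  have hly : Real.log n ≤ y := by
    rw [hy]
    nth_rw 1 [← Real.rpow_one (Real.log n)]
    exact Real.rpow_le_rpow_of_exponent_le hl1 ha
  have hy0 : 0 < y := by linarith
  obtain ⟨g, hg⟩ : ∃ g : ℕ, g = ⌊y⌋₊ := ⟨_, rfl⟩
  have hg1 : (g : ℝ) ≤ y := by rw [hg]; exact Nat.floor_le hy0.le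
  have hg2 : y < g + 1 := by rw [hg]; exact Nat.lt_floor_add_one y
  refine ⟨g, ?_, ?_, ?_⟩
  · rw [hg]
    exact Nat.le_floor (by push_cast; linarith)
  · refine hg1.trans ?_
    rw [hy, ← Real.rpow_natCast]
    apply Real.rpow_le_rpow_of_exponent_le hl1
    exact (Nat.le_ceil a).trans (by exact_mod_cast le_max_left _ _)
  · unfold RR at h1
    rw [← hy, df_nat n hy0.le, ← hg] at h1
    have h3 : (pr n g : ℝ) ≤ s * y / Real.log n := by
      rw [le_div_iff₀ hl0]
      rw [div_mul_eq_mul_div, div_le_iff₀ hy0] at h1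
      linarith
    refine lt_of_le_of_lt h3 ?_
    apply div_lt_div_of_pos_right _ hl0
    have h4 : |s| / (s' - s) < g := by linarith
    rw [div_lt_iff₀ hss] at h4
    have h5 : s * y ≤ s * g + |s| := by
      have : s * (y - g) ≤ |s| * 1 := by
        calc s * (y - g) ≤ |s * (y - g)| := le_abs_self _
          _ = |s| * |y - g| := abs_mul _ _
          _ ≤ |s| * 1 := by
            apply mul_le_mul_of_nonneg_left _ (abs_nonneg _)
            rw [abs_le]
            constructor <;> linarith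
      linarith
    linarith

theorem dnD_of_ev {a s s' : ℝ} (ha : 1 ≤ a) (hs : s' < s) (h : ∀ᶠ x : ℝ in atTop, s ≤ RR a x) : DnD s' := by
  have hss : 0 < s - s' := by linarith
  have h0 : ∀ᶠ x : ℝ in atTop, s ≤ RR a x ∧ 1 + |s| / (s - s') + 1 ≤ Real.log x :=
    h.and (Real.tendsto_log_atTop.eventually_ge_atTop _)
  obtain ⟨b, hb⟩ := eventually_atTop.1 h0
  refine ⟨max ⌈a⌉₊ ⌈b⌉₊, fun n hn => ?_⟩
  have hbn : b ≤ n := (Nat.le_ceil b).trans (by exact_mod_cast (le_max_right _ _).trans hn)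
  obtain ⟨h1, h2⟩ := hb n hbn
  have hq : 0 ≤ |s| / (s - s') := by positivity
  have hl1 : 1 ≤ Real.log n := by linarith
  have hl0 : 0 < Real.log n := by linarith
  obtain ⟨y, hy⟩ : ∃ y : ℝ, y = Real.log n ^ a := ⟨_, rfl⟩
  have hly : Real.log n ≤ y := by
    rw [hy]
    nth_rw 1 [← Real.rpow_one (Real.log n)]
    exact Real.rpow_le_rpow_of_exponent_le hl1 ha
  have hy0 : 0 < y := by linarith
  obtain ⟨g, hg⟩ : ∃ g : ℕ, g = ⌊y⌋₊ := ⟨_, rfl⟩
  have hg1 : (g : ℝ) ≤ y := by rw [hg]; exact Nat.floor_le hy0.le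
  have hg2 : y < g + 1 := by rw [hg]; exact Nat.lt_floor_add_one y
  refine ⟨g, ?_, ?_, ?_⟩
  · rw [hg]
    exact Nat.le_floor (by push_cast; linarith)
  · refine hg1.trans ?_
    rw [hy, ← Real.rpow_natCast]
    apply Real.rpow_le_rpow_of_exponent_le hl1
    exact (Nat.le_ceil a).trans (by exact_mod_cast le_max_left _ _)
  · unfold RR at h1
    rw [← hy, df_nat n hy0.le, ← hg] at h1
    have h3 : s * y / Real.log n ≤ (pr n g : ℝ) := by
      rw [div_le_iff₀ hl0]
      rw [div_mul_eq_mul_div, le_div_iff₀ hy0] at h1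
      linarith
    refine lt_of_lt_of_le ?_ h3
    apply div_lt_div_of_pos_right _ hl0
    have h4 : |s| / (s - s') < g := by linarith
    rw [div_lt_iff₀ hss] at h4
    have h5 : s * g - |s| ≤ s * y := by
      have : -(|s| * 1) ≤ s * (y - g) := by
        have h6 : |s * (y - g)| ≤ |s| * 1 := by
          rw [abs_mul]
          apply mul_le_mul_of_nonneg_left _ (abs_nonneg _)
          rw [abs_le]
          constructor <;> linarith
        have h7 := neg_abs_le (s * (y - g))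
        linarith
      linarith
    linarith

/-- the upper constant `U_a` -/
noncomputable def UU (a : ℝ) : EReal := limsup (fun x : ℝ => ((RR a x : ℝ) : EReal)) atTop

/-- the lower constant `L_a` -/
noncomputable def LL (a : ℝ) : EReal := liminf (fun x : ℝ => ((RR a x : ℝ) : EReal)) atTop

/-- the limit of the upper constants -/
noncomputable def uu : EReal := sInf {e : EReal | ∃ s : ℝ, e = s ∧ UpD s}

/-- the limit of the lower constants -/
noncomputable def ll : EReal := sSup {e : EReal | ∃ s : ℝ, e = s ∧ DnD s}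

theorem upD_of_gt {s : ℝ} (h : uu < s) : UpD s := by
  unfold uu at h
  rw [sInf_lt_iff] at h
  obtain ⟨e, ⟨t, rfl, ht⟩, hlt⟩ := h
  exact upD_mono (by exact_mod_cast hlt.le) ht

theorem dnD_of_lt {s : ℝ} (h : (s : EReal) < ll) : DnD s := by
  unfold ll at h
  rw [lt_sSup_iff] at h
  obtain ⟨e, ⟨t, rfl, ht⟩, hlt⟩ := h
  exact dnD_mono (by exact_mod_cast hlt.le) ht

theorem uu_le {s : ℝ} (h : UpD s) : uu ≤ s := sInf_le ⟨s, rfl, h⟩

theorem le_ll {s : ℝ} (h : DnD s) : (s : EReal) ≤ ll := le_sSup ⟨s, rfl, h⟩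

theorem upC_of_gt {s : ℝ} (h : uu < s) : UpC s := by
  obtain ⟨t, h1, h2⟩ := EReal.lt_iff_exists_real_btwn.1 h
  have h3 := upD_of_gt h1
  exact upC_of_upD (upD_pos h3).le (by exact_mod_cast h2) h3

theorem ll_nonneg : 0 ≤ ll := by
  by_contra hcon
  rw [not_le] at hcon
  obtain ⟨t, h1, h2⟩ := EReal.lt_iff_exists_real_btwn.1 hcon
  have h3 : t < 0 := by exact_mod_cast h2
  exact absurd (le_ll (dnD_neg h3)) (not_le.2 h1)

theorem dnC_of_neg {s : ℝ} (h : s ≤ 0) : DnC s := by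
  refine ⟨3, fun x y hx hy hyx => ?_⟩
  have hl : 0 ≤ Real.log x := Real.log_nonneg (by push_cast at hx; linarith)
  have hy0 : 0 ≤ y := le_trans (by positivity) hy
  have h1 : s * (y / Real.log x) ≤ 0 := mul_nonpos_of_nonpos_of_nonneg h (by positivity)
  exact h1.trans (df_nonneg hy0)

theorem dnC_of_lt {s : ℝ} (h : (s : EReal) < ll) : DnC s := by
  by_cases hs : s ≤ 0
  · exact dnC_of_neg hs
  · obtain ⟨t, h1, h2⟩ := EReal.lt_iff_exists_real_btwn.1 h
    have h3 := dnD_of_lt h2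
    have h4 : s < t := by exact_mod_cast h1
    exact dnC_of_dnD (by linarith) h4 h3

/-- the constants converge -/
theorem tendsto_UU : Tendsto UU atTop (𝓝 uu) ∧ ∀ a : ℝ, 1 ≤ a → uu ≤ UU a := by
  have hge : ∀ a : ℝ, 1 ≤ a → uu ≤ UU a := by
    intro a ha
    by_contra hcon
    rw [not_le] at hcon
    obtain ⟨t, h1, h2⟩ := EReal.lt_iff_exists_real_btwn.1 hcon
    obtain ⟨t', h3, h4⟩ := EReal.lt_iff_exists_real_btwn.1 h2
    have h5 : ∀ᶠ x : ℝ in atTop, RR a x ≤ t := by
      filter_upwards [eventually_lt_of_limsup_lt h1] with x hx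
      exact (by exact_mod_cast hx : RR a x < t).le
    have h6 := upD_of_ev ha (by exact_mod_cast h3 : t < t') h5
    exact absurd (uu_le h6) (not_le.2 h4)
  refine ⟨?_, hge⟩
  rw [tendsto_order]
  constructor
  · intro b hb
    filter_upwards [eventually_ge_atTop (1 : ℝ)] with a ha
    exact lt_of_lt_of_le hb (hge a ha)
  · intro b hb
    obtain ⟨t, h1, h2⟩ := EReal.lt_iff_exists_real_btwn.1 hb
    obtain ⟨a₀, ha₀⟩ := upA_of_upC (upC_of_gt h1)
    filter_upwards [eventually_ge_atTop a₀] with a ha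
    refine lt_of_le_of_lt ?_ h2
    apply limsup_le_of_le
    · isBoundedDefault
    · filter_upwards [ha₀ a ha] with x hx
      exact_mod_cast hx

theorem tendsto_LL : Tendsto LL atTop (𝓝 ll) ∧ ∀ a : ℝ, 1 ≤ a → LL a ≤ ll := by
  have hge : ∀ a : ℝ, 1 ≤ a → LL a ≤ ll := by
    intro a ha
    by_contra hcon
    rw [not_le] at hcon
    obtain ⟨t', h2, h1⟩ := EReal.lt_iff_exists_real_btwn.1 hcon
    obtain ⟨t, h3, h4⟩ := EReal.lt_iff_exists_real_btwn.1 h1
    have h5 : ∀ᶠ x : ℝ in atTop, t ≤ RR a x := by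
      filter_upwards [eventually_lt_of_lt_liminf h4] with x hx
      exact (by exact_mod_cast hx : t < RR a x).le
    have h6 := dnD_of_ev ha (by exact_mod_cast h3 : t' < t) h5
    exact absurd (le_ll h6) (not_le.2 h2)
  refine ⟨?_, hge⟩
  rw [tendsto_order]
  constructor
  · intro b hb
    obtain ⟨t, h1, h2⟩ := EReal.lt_iff_exists_real_btwn.1 hb
    obtain ⟨a₀, ha₀⟩ := dnA_of_dnC (dnC_of_lt h2)
    filter_upwards [eventually_ge_atTop a₀] with a ha
    refine lt_of_lt_of_le h1 ?_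
    apply le_liminf_of_le
    · isBoundedDefault
    · filter_upwards [ha₀ a ha] with x hx
      exact_mod_cast hx
  · intro b hb
    filter_upwards [eventually_ge_atTop (1 : ℝ)] with a ha
    exact lt_of_le_of_lt (hge a ha) hb

end Pool.Agent.X26.JF
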